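import Pool.Agent.V11328.F7.Konig

/-! In the process keeping the Konig property, at the time of the first perfect matching the
optimal cover is never unique. -/

open Finset

namespace Pool.Agent.Results.MP_f77465_pr.NeverUnique

open Pool.Agent.V11328.F7

/-- Orderings of the edges of the complete graph on `n` vertices. -/
abbrev EdgeOrder (n : ℕ) := Fin (n.choose 2) ≃ {e : Sym2 (Fin n) // ¬ e.IsDiag}

/-- The graph `G` with the edge `e` added. -/
def addEdge {n : ℕ} (G : SimpleGraph (Fin n)) (e : Sym2 (Fin n)) : SimpleGraph (Fin n) :=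
  G ⊔ SimpleGraph.fromEdgeSet {e}

open Classical in
/-- The process: the `i`-th edge is accepted exactly when the matching number of the enlarged
graph equals its cover number. -/
noncomputable def proc {n : ℕ} (σ : EdgeOrder n) : ℕ → SimpleGraph (Fin n)
  | 0 => ⊥
  | i + 1 =>
    if h : i < n.choose 2 then
      (if tau (addEdge (proc σ i) (σ ⟨i, h⟩).1) = nu (addEdge (proc σ i) (σ ⟨i, h⟩).1) then
        addEdge (proc σ i) (σ ⟨i, h⟩).1
      else proc σ i)
    else proc σ i

/-- `G` has a perfect matching. -/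
def HasPM {n : ℕ} (G : SimpleGraph (Fin n)) : Prop := ∃ M, IsMat G M ∧ ∀ v, ∃ e ∈ M, v ∈ e

/-- `C` is an optimal cover of `G`: a vertex cover of size `tau G`. -/
def IsOpt {n : ℕ} (G : SimpleGraph (Fin n)) (C : Finset (Fin n)) : Prop :=
  IsCov G C ∧ #C = tau G

/-- The ordering `σ` leads to a perfect matching for the first time at index `T`, and the graph at
that time has at least two optimal covers. -/
def TwoCovers {n : ℕ} (σ : EdgeOrder n) : Prop :=
  ∃ T ≤ n.choose 2, HasPM (proc σ T) ∧ (∀ i < T, ¬ HasPM (proc σ i)) ∧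
    ∃ C D, C ≠ D ∧ IsOpt (proc σ T) C ∧ IsOpt (proc σ T) D

variable {n : ℕ}

lemma addEdge_mem (G : SimpleGraph (Fin n)) {e : Sym2 (Fin n)} (he : ¬ e.IsDiag)
    (f : Sym2 (Fin n)) : f ∈ (addEdge G e).edgeSet ↔ f = e ∨ f ∈ G.edgeSet := by
  rw [addEdge, SimpleGraph.edgeSet_sup, SimpleGraph.edgeSet_fromEdgeSet]
  simp only [Set.mem_union, Set.mem_sdiff, Set.mem_singleton_iff, Sym2.mem_diagSet]
  constructor
  · rintro (h | ⟨h, _⟩)
    · exact Or.inr h
    · exact Or.inl h
  · rintro (h | h)
    · exact Or.inr ⟨h, h ▸ he⟩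
    · exact Or.inl h

lemma addEdge_cov {G : SimpleGraph (Fin n)} {x y : Fin n} (hxy : x ≠ y) {C : Finset (Fin n)}
    (hC : IsCov G C) (w : Fin n) (hw : w = x ∨ w = y) :
    IsCov (addEdge G s(x, y)) (insert w C) := by
  intro a b hab
  rw [← SimpleGraph.mem_edgeSet, addEdge_mem G (by rwa [Sym2.mk_isDiag_iff])] at hab
  rcases hab with hab | hab
  · rw [Sym2.eq_iff] at hab
    rcases hw with rfl | rfl
    · rcases hab with ⟨rfl, rfl⟩ | ⟨rfl, rfl⟩
      · left; simp
      · right; simp
    · rcases hab with ⟨rfl, rfl⟩ | ⟨rfl, rfl⟩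
      · right; simp
      · left; simp
  · rcases hC a b hab with h | h
    · left; exact mem_insert_of_mem h
    · right; exact mem_insert_of_mem h

lemma tau_add (G : SimpleGraph (Fin n)) {e : Sym2 (Fin n)} (he : ¬ e.IsDiag) :
    tau (addEdge G e) ≤ tau G + 1 := by
  induction e with
  | h x y =>
    rw [Sym2.mk_isDiag_iff] at he
    obtain ⟨C, hC, hCc⟩ := tau_spec G
    rw [← hCc]
    exact (tau_le (addEdge_cov he hC x (Or.inl rfl))).trans (card_insert_le _ _)

lemma isMat_mono {G : SimpleGraph (Fin n)} {e : Sym2 (Fin n)} (he : ¬ e.IsDiag)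
    {M : Finset (Sym2 (Fin n))} (h : IsMat G M) : IsMat (addEdge G e) M :=
  ⟨fun f hf => (addEdge_mem G he f).2 (Or.inr (h.1 f hf)), h.2⟩

lemma isMat_insert {G : SimpleGraph (Fin n)} {x y : Fin n} (hxy : x ≠ y)
    {M : Finset (Sym2 (Fin n))} (h : IsMat G M) (hx : x ∉ cov M) (hy : y ∉ cov M) :
    IsMat (addEdge G s(x, y)) (insert s(x, y) M) := by
  have hcross : ∀ g ∈ M, ∀ v, v ∈ g → v ∈ s(x, y) → False := by
    intro g hg v hvg hv
    rw [Sym2.mem_iff] at hv
    rcases hv with rfl | rfl
    · exact hx (mem_cov.2 ⟨g, hg, hvg⟩)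
    · exact hy (mem_cov.2 ⟨g, hg, hvg⟩)
  constructor
  · intro f hf
    rw [mem_insert] at hf
    exact (addEdge_mem G (by rwa [Sym2.mk_isDiag_iff]) f).2 (hf.imp id (h.1 f))
  · intro g hg f hf v hvg hvf
    rw [mem_insert] at hg hf
    rcases hg with rfl | hg <;> rcases hf with rfl | hf
    · rfl
    · exact (hcross f hf v hvf hvg).elim
    · exact (hcross g hg v hvg hvf).elim
    · exact h.2 g hg f hf v hvg hvf

/-- All graphs of the process have equal matching and cover numbers. -/
lemma proc_konig (σ : EdgeOrder n) (i : ℕ) : tau (proc σ i) = nu (proc σ i) := by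
  induction i with
  | zero =>
    refine le_antisymm ?_ (nu_le_tau _)
    have h : IsCov (proc σ 0) (∅ : Finset (Fin n)) := by
      intro x y hxy
      simp [proc] at hxy
    have := tau_le h
    simp only [card_empty] at this
    omega
  | succ i ih =>
    simp only [proc]
    split_ifs with h1 h2
    · exact h2
    · exact ih
    · exact ih

/-- The invariant: some maximum matching has all pairs of missed vertices unexamined. -/
lemma invariant (σ : EdgeOrder n) (i : ℕ) (hi : i ≤ n.choose 2) :
    ∃ M, IsMat (proc σ i) M ∧ #M = nu (proc σ i) ∧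
      ∀ x y, x ≠ y → x ∉ cov M → y ∉ cov M → ∀ j (h : j < n.choose 2), j < i →
        (σ ⟨j, h⟩).1 ≠ s(x, y) := by
  induction i with
  | zero =>
    refine ⟨∅, ⟨by simp, by simp⟩, ?_, fun _ _ _ _ _ _ _ h => by omega⟩
    have h : IsCov (proc σ 0) (∅ : Finset (Fin n)) := by
      intro x y hxy
      simp [proc] at hxy
    have h1 := tau_le h
    have h2 := nu_le_tau (proc σ 0)
    simp only [card_empty] at h1 ⊢
    omega
  | succ i ih =>
    obtain ⟨M, hM, hMc, hunex⟩ := ih (by omega)
    have hi' : i < n.choose 2 := by omega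
    set H := proc σ i with hH
    set e := (σ ⟨i, hi'⟩).1 with he
    have hed : ¬ e.IsDiag := (σ ⟨i, hi'⟩).2
    have hproc : proc σ (i + 1) = if tau (addEdge H e) = nu (addEdge H e) then addEdge H e else H := by
      simp only [proc, dif_pos hi']
      rfl
    have hkon := proc_konig σ i
    rw [← hH] at hkon
    by_cases hboth : ∃ x y, e = s(x, y) ∧ x ∉ cov M ∧ y ∉ cov M
    · obtain ⟨x, y, hexy, hx, hy⟩ := hboth
      have hxy : x ≠ y := by
        rw [hexy, Sym2.mk_isDiag_iff] at hed; exact hed
      have hins : IsMat (addEdge H e) (insert s(x, y) M) := by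
        rw [hexy]; exact isMat_insert hxy hM hx hy
      have hnot : s(x, y) ∉ M := fun h => hx (mem_cov.2 ⟨_, h, by simp⟩)
      have hcard : #(insert s(x, y) M) = nu H + 1 := by
        rw [card_insert_of_notMem hnot, hMc]
      have h1 := le_nu hins
      have h2 := nu_le_tau (addEdge H e)
      have h3 := tau_add H hed
      have hacc : tau (addEdge H e) = nu (addEdge H e) := by omega
      rw [hproc, if_pos hacc]
      refine ⟨insert s(x, y) M, hins, by omega, ?_⟩
      intro a b hab ha hb j hj hji
      have hsub : ∀ v, v ∉ cov (insert s(x, y) M) → v ∉ cov M ∧ v ≠ x ∧ v ≠ y := by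
        intro v hv
        refine ⟨fun h => ?_, fun h => ?_, fun h => ?_⟩
        · obtain ⟨g, hg, hvg⟩ := mem_cov.1 h
          exact hv (mem_cov.2 ⟨g, mem_insert_of_mem hg, hvg⟩)
        · exact hv (mem_cov.2 ⟨s(x, y), mem_insert_self _ _, by simp [h]⟩)
        · exact hv (mem_cov.2 ⟨s(x, y), mem_insert_self _ _, by simp [h]⟩)
      have ha' := hsub a ha
      have hb' := hsub b hb
      by_cases hjeq : j = i
      · subst hjeq
        rw [← he, hexy]
        intro hcon
        rw [Sym2.eq_iff] at hcon
        rcases hcon with ⟨h, _⟩ | ⟨h, _⟩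
        · exact ha'.2.1 h.symm
        · exact hb'.2.1 h.symm
      · exact hunex a b hab ha'.1 hb'.1 j hj (by omega)
    · -- the new edge does not join two missed vertices
      have hstep : ∀ M', cov M ⊆ cov M' → ∀ x y, x ≠ y → x ∉ cov M' → y ∉ cov M' →
          ∀ j (h : j < n.choose 2), j < i + 1 → (σ ⟨j, h⟩).1 ≠ s(x, y) := by
        intro M' hsub x y hxy hx hy j hj hji
        have hx' : x ∉ cov M := fun h => hx (hsub h)
        have hy' : y ∉ cov M := fun h => hy (hsub h)
        by_cases hjeq : j = i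
        · subst hjeq
          intro hcon
          exact hboth ⟨x, y, hcon, hx', hy'⟩
        · exact hunex x y hxy hx' hy' j hj (by omega)
      by_cases hacc : tau (addEdge H e) = nu (addEdge H e)
      · rw [hproc, if_pos hacc]
        have hmono := le_nu (isMat_mono hed hM)
        by_cases hgt : #M = nu (addEdge H e)
        · exact ⟨M, isMat_mono hed hM, hgt, hstep M subset_rfl⟩
        · obtain ⟨M', hM', hM'c⟩ := nu_spec (addEdge H e)
          obtain ⟨N, hNs, hN, hNc, hNcov⟩ := exchange _ M M' rfl hM.isM hM'.isM (by omega)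
          have h3 := tau_add H hed
          refine ⟨N, ⟨?_, hN.2⟩, by omega, hstep N hNcov⟩
          intro f hf
          rcases mem_union.1 (hNs hf) with h | h
          · exact (isMat_mono hed hM).1 f h
          · exact hM'.1 f h
      · rw [hproc, if_neg hacc]
        exact ⟨M, hM, hMc, hstep M subset_rfl⟩

/-- For an even number of vertices, the process ends with a perfect matching. -/
lemma ends_with_pm (hn : Even n) (σ : EdgeOrder n) : HasPM (proc σ (n.choose 2)) := by
  obtain ⟨M, hM, hMc, hunex⟩ := invariant σ (n.choose 2) le_rfl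
  refine ⟨M, hM, ?_⟩
  by_contra hcon
  push Not at hcon
  obtain ⟨v, hv⟩ := hcon
  have hv' : v ∉ cov M := by
    rw [mem_cov]
    rintro ⟨e, he, hve⟩
    exact hv e he hve
  have hcard := card_cov hM.isM
  have hlt : #(cov M) < n := by
    have h1 : cov M ⊆ univ.erase v := by
      intro w hw
      rw [mem_erase]
      exact ⟨fun h => hv' (h ▸ hw), mem_univ w⟩
    have h2 := card_le_card h1
    rw [card_erase_of_mem (mem_univ v), card_univ, Fintype.card_fin] at h2
    have : 0 < n := v.pos
    omega
  have hlt2 : #(insert v (cov M)) < n := by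
    rw [card_insert_of_notMem hv']
    obtain ⟨r, hr⟩ := hn
    omega
  have hw : ∃ w, w ∉ insert v (cov M) := by
    by_contra hc
    push Not at hc
    have : insert v (cov M) = univ := by ext w; simp only [mem_univ, iff_true]; exact hc w
    rw [this, card_univ, Fintype.card_fin] at hlt2
    omega
  obtain ⟨w, hw⟩ := hw
  rw [mem_insert, not_or] at hw
  have hvw : v ≠ w := fun h => hw.1 h.symm
  obtain ⟨j, hj⟩ := σ.surjective ⟨s(v, w), by rwa [Sym2.mk_isDiag_iff]⟩
  exact hunex v w hvw hv' hw.2 j.1 j.2 j.2 (by rw [Fin.eta, hj])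

lemma two_covers (hn : Even n) (h2 : 2 ≤ n) (σ : EdgeOrder n) : TwoCovers σ := by
  classical
  have hex : ∃ T, HasPM (proc σ T) := ⟨_, ends_with_pm hn σ⟩
  set T := Nat.find hex with hT
  have hTpm : HasPM (proc σ T) := Nat.find_spec hex
  have hTmin : ∀ i < T, ¬ HasPM (proc σ i) := fun i hi => Nat.find_min hex hi
  have hTle : T ≤ n.choose 2 := Nat.find_le (ends_with_pm hn σ)
  refine ⟨T, hTle, hTpm, hTmin, ?_⟩
  have hT0 : T ≠ 0 := by
    intro h0
    rw [h0] at hTpm
    obtain ⟨M, hM, hMv⟩ := hTpm
    obtain ⟨e, he, _⟩ := hMv ⟨0, by omega⟩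
    have := hM.1 e he
    simp [proc] at this
  obtain ⟨i, hi⟩ := Nat.exists_eq_succ_of_ne_zero hT0
  have hiT : i < T := by omega
  have hi' : i < n.choose 2 := by omega
  set H := proc σ i with hH
  set e := (σ ⟨i, hi'⟩).1 with he
  have hed : ¬ e.IsDiag := (σ ⟨i, hi'⟩).2
  have hproc : proc σ (i + 1) = if tau (addEdge H e) = nu (addEdge H e) then addEdge H e else H := by
    simp only [proc, dif_pos hi']
    rfl
  have hHno : ¬ HasPM H := hTmin i hiT
  have hacc : tau (addEdge H e) = nu (addEdge H e) := by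
    by_contra hno
    rw [hi, Nat.succ_eq_add_one, hproc, if_neg hno] at hTpm
    exact hHno hTpm
  have hTeq : proc σ T = addEdge H e := by
    rw [hi, Nat.succ_eq_add_one, hproc, if_pos hacc]
  rw [hTeq] at hTpm ⊢
  obtain ⟨P, hP, hPv⟩ := hTpm
  have hcovP : cov P = univ := by
    ext v; simp only [mem_univ, iff_true]; exact mem_cov.2 (hPv v)
  have hPc : 2 * #P = n := by
    have := card_cov hP.isM
    rw [hcovP, card_univ, Fintype.card_fin] at this
    exact this.symm
  -- the new edge is in the perfect matching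
  have heP : e ∈ P := by
    by_contra hno
    apply hHno
    refine ⟨P, ⟨?_, hP.2⟩, hPv⟩
    intro f hf
    rcases (addEdge_mem H hed f).1 (hP.1 f hf) with h | h
    · exact absurd (h ▸ hf) hno
    · exact h
  have hM0 : IsMat H (P.erase e) := by
    refine ⟨?_, fun f hf g hg => hP.2 f (mem_of_mem_erase hf) g (mem_of_mem_erase hg)⟩
    intro f hf
    rcases (addEdge_mem H hed f).1 (hP.1 f (mem_of_mem_erase hf)) with h | h
    · exact absurd h (ne_of_mem_erase hf)
    · exact h
  have hM0c : #(P.erase e) = #P - 1 := card_erase_of_mem heP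
  have hPpos : 0 < #P := card_pos.2 ⟨e, heP⟩
  have hkon := proc_konig σ i
  rw [← hH] at hkon
  -- the matching number of `H`
  have hnuH : nu H = #P - 1 := by
    apply le_antisymm
    · obtain ⟨M, hM, hMc⟩ := nu_spec H
      by_contra hcon
      apply hHno
      refine ⟨M, hM, ?_⟩
      have h3 := card_cov hM.isM
      have h4 : #(cov M) ≤ n := by
        have := card_le_univ (cov M)
        rwa [Fintype.card_fin] at this
      have h5 : cov M = univ := by
        rw [← Finset.card_eq_iff_eq_univ, Fintype.card_fin]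
        omega
      intro v
      have : v ∈ cov M := by rw [h5]; exact mem_univ v
      exact mem_cov.1 this
    · rw [← hM0c]; exact le_nu hM0
  obtain ⟨C, hC, hCc⟩ := tau_spec H
  have hCall := mat_le_cov hM0 hC
  have hCfull : ∀ v ∈ C, v ∈ cov (P.erase e) := by
    have h6 : #C ≤ #(C.filter (fun v => v ∈ cov (P.erase e))) := by omega
    have h7 := Finset.eq_of_subset_of_card_le (filter_subset (fun v => v ∈ cov (P.erase e)) C) h6
    intro v hv
    rw [← h7] at hv
    exact (mem_filter.1 hv).2
  have hout : ∀ v, v ∈ e → v ∉ C := by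
    intro v hve hvC
    obtain ⟨f, hf, hvf⟩ := mem_cov.1 (hCfull v hvC)
    exact (ne_of_mem_erase hf) (hP.2 f (mem_of_mem_erase hf) e heP v hvf hve)
  have htau : tau (addEdge H e) = #P := by
    apply le_antisymm
    · have := tau_add H hed
      omega
    · rw [hacc]; exact le_nu hP
  clear_value e
  induction e with
  | h x y =>
    rw [Sym2.mk_isDiag_iff] at hed
    have hx : x ∉ C := hout x (by simp)
    have hy : y ∉ C := hout y (by simp)
    refine ⟨insert x C, insert y C, ?_, ⟨addEdge_cov hed hC x (Or.inl rfl), ?_⟩,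
      ⟨addEdge_cov hed hC y (Or.inr rfl), ?_⟩⟩
    · intro h
      have : x ∈ insert y C := h ▸ mem_insert_self x C
      rw [mem_insert] at this
      rcases this with h | h
      · exact hed h
      · exact hx h
    · rw [card_insert_of_notMem hx, htau]; omega
    · rw [card_insert_of_notMem hy, htau]; omega

instance (n : ℕ) : Nonempty (EdgeOrder n) := by
  refine ⟨(Fintype.equivFinOfCardEq ?_).symm⟩
  rw [Sym2.card_subtype_not_diag, Fintype.card_fin]

/-- For every even `n ≥ 2`: whatever the ordering, the process reaches a perfect matching, and at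
that moment there are at least two optimal covers; hence this has probability one under the
uniform measure on orderings. -/
theorem result (n : ℕ) (hn : Even n) (h2 : 2 ≤ n) :
    (∀ σ : EdgeOrder n, TwoCovers σ) ∧
      (PMF.uniformOfFintype (EdgeOrder n)).toOuterMeasure {σ | TwoCovers σ} = 1 := by
  refine ⟨two_covers hn h2, ?_⟩
  rw [PMF.toOuterMeasure_apply_eq_one_iff]
  intro σ _
  exact two_covers hn h2 σ

end Pool.Agent.Results.MP_f77465_pr.NeverUnique
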